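import Pool.Agent.Q169.PT.Fin2
import Pool.Agent.Q169.PT.Rel
import Pool.Agent.Q169.PT.Br
import Pool.Agent.Q38.PT.Cohi

/-!
# Controlled subsets of a group

If a cocycle of a unitary representation which is weakly contained in the regular representation is
bounded on `A` then it is bounded on all subsets controlled by `A`.
-/

set_option autoImplicit false

namespace Pool.Agent.U89.PD

open Pool.Agent.Q169.PT (Rep IsCoc Tempered Amen)
open Pool.Agent.Q169.PT.Pub (RelativeT Amenable)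
open Pool.Agent.Q38.PT.Ka (coc_one coc_inv inv_mul_cancel_apply mul_inv_cancel_apply)

/-- `Ctrl G A₀ B`: the subset `B` of the group `G` is controlled by the subset `A₀`. For fixed `A₀`
this is the smallest class of subsets such that

* `base`, `finite`: `A₀` and all finite sets are controlled;
* `subset`, `union`, `mul`, `inv`: subsets, unions of two, products `A B` of two and inverses of
  controlled sets are controlled;
* `relT`: if `N` is a normal subgroup of a subgroup `K` of `G` and the pair `(K, N)` has the relative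
  property (T), then `N` is controlled;
* `conj`: `A` is controlled if there is a nonamenable subgroup `H` such that for each `s` in `H` the
  set of the elements `a⁻¹ s a` with `a` in `A` is controlled (for instance if `A` centralises `H`);
* `spread`: if `H` is a controlled nonamenable subgroup then the subgroup generated by all `g` for
  which `H ∩ g H g⁻¹` is nonamenable is controlled;
* `join`: if `K i` are controlled subgroups and `K i₀ ∩ K i` is nonamenable for all `i`, then the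
  subgroup generated by all `K i` is controlled. -/
inductive Ctrl (G : Type) [Group G] (A₀ : Set G) : Set G → Prop
  | base : Ctrl G A₀ A₀
  | finite (A : Set G) (h : A.Finite) : Ctrl G A₀ A
  | subset (A B : Set G) (h : A ⊆ B) (hB : Ctrl G A₀ B) : Ctrl G A₀ A
  | union (A B : Set G) (hA : Ctrl G A₀ A) (hB : Ctrl G A₀ B) : Ctrl G A₀ (A ∪ B)
  | mul (A B : Set G) (hA : Ctrl G A₀ A) (hB : Ctrl G A₀ B) :
      Ctrl G A₀ {x | ∃ a ∈ A, ∃ b ∈ B, x = a * b}
  | inv (A : Set G) (hA : Ctrl G A₀ A) : Ctrl G A₀ {x | x⁻¹ ∈ A}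
  | relT (K : Subgroup G) (N : Subgroup K) (hn : N.Normal) (h : RelativeT K N) :
      Ctrl G A₀ {x | ∃ y ∈ N, x = (y : G)}
  | conj (A : Set G) (H : Subgroup G) (hH : ¬ Amenable H)
      (h : ∀ s ∈ H, Ctrl G A₀ {x | ∃ a ∈ A, x = a⁻¹ * s * a}) : Ctrl G A₀ A
  | spread (H : Subgroup G) (hH : ¬ Amenable H) (hT : Ctrl G A₀ (H : Set G)) :
      Ctrl G A₀ (Subgroup.closure
        {g : G | ¬ Amenable (H ⊓ H.map (MulAut.conj g).toMonoidHom : Subgroup G)} : Set G)
  | join (ι : Type) (K : ι → Subgroup G) (i₀ : ι) (hT : ∀ i, Ctrl G A₀ (K i : Set G))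
      (h : ∀ i, ¬ Amenable (K i₀ ⊓ K i : Subgroup G)) :
      Ctrl G A₀ ((⨆ i, K i : Subgroup G) : Set G)

noncomputable section

section

variable {G H : Type} [Group G] [NormedAddCommGroup H] [InnerProductSpace ℂ H]

/-- a nonamenable subgroup has no almost invariant vectors in a tempered representation -/
theorem gapv (π : Rep G H) (hπ : Tempered π) (N : Subgroup G) (hN : ¬ Amen N) :
    ∃ (S : Finset N) (ε : ℝ), 0 < ε ∧
      ∀ v : H, ε * ‖v‖ ≤ ∑ s ∈ S, ‖π.hom (s : G) v - v‖ := by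
  obtain ⟨S, K, hK0, hK, hS⟩ := Pool.Agent.Q169.PT.Re.gap hN
  refine ⟨S, 2 * (S.card : ℝ) - K, by linarith, fun v => ?_⟩
  have h1 : ‖Pool.Agent.Q169.PT.Re.T S‖ ≤ K :=
    ContinuousLinearMap.opNorm_le_bound _ hK0 fun f => by
      rw [Pool.Agent.Q169.PT.Re.T_apply]; exact hS f
  have h2 := (Pool.Agent.TH38.CX.Cond.rel_norm N (Pool.Agent.Q169.PT.Re.rel_T N S)).trans h1
  have h3 := hπ (Pool.Agent.Q169.PT.Re.avg (S.map ⟨Subtype.val, Subtype.val_injective⟩)) K
    (fun f => by
      rw [Pool.Agent.Q169.PT.Re.sum_avg, ← Pool.Agent.Q169.PT.Re.T_apply]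
      exact ((Pool.Agent.Q169.PT.Re.T _).le_opNorm f).trans
        (mul_le_mul_of_nonneg_right h2 (norm_nonneg f))) v
  rw [Pool.Agent.Q169.PT.Re.sum_avg, Finset.sum_map] at h3
  change ‖∑ s ∈ S, (v + π.hom (s : G) v)‖ ≤ _ at h3
  have h4 : ((2 * S.card : ℝ) : ℂ) • v =
      ∑ s ∈ S, (v + π.hom (s : G) v) - ∑ s ∈ S, (π.hom (s : G) v - v) := by
    rw [← Finset.sum_sub_distrib]
    have : ∀ s ∈ S, (v + π.hom (s : G) v - (π.hom (s : G) v - v)) = (2 : ℂ) • v := by
      intro s _
      rw [two_smul]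
      abel
    rw [Finset.sum_congr rfl this, Finset.sum_const, ← Nat.cast_smul_eq_nsmul ℂ, smul_smul]
    congr 1
    push_cast
    ring
  have h5 : 2 * (S.card : ℝ) * ‖v‖ = ‖((2 * S.card : ℝ) : ℂ) • v‖ := by
    rw [norm_smul, Complex.norm_real, Real.norm_of_nonneg (by positivity)]
  have h6 : 2 * (S.card : ℝ) * ‖v‖ ≤ K * ‖v‖ + ∑ s ∈ S, ‖π.hom (s : G) v - v‖ := by
    rw [h5, h4]
    exact (norm_sub_le _ _).trans (add_le_add h3 (norm_sum_le _ _))
  linarith

variable (π : Rep G H)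

/-- a cocycle minus a coboundary -/
theorem coc_sub {b : G → H} (hb : IsCoc π b) (w : H) :
    IsCoc π (fun g => b g - (π.hom g w - w)) := by
  intro g h
  have h1 : π.hom (g * h) w = π.hom g (π.hom h w) := by
    rw [map_mul]
    rfl
  beta_reduce
  rw [hb g h, h1, map_sub, map_sub]
  abel

/-- the zero set of a cocycle -/
def zer {b : G → H} (hb : IsCoc π b) : Subgroup G where
  carrier := {g | b g = 0}
  one_mem' := coc_one π hb
  mul_mem' := by
    intro g h hg hh
    change b (g * h) = 0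
    rw [hb g h, show b g = 0 from hg, show b h = 0 from hh, map_zero, add_zero]
  inv_mem' := by
    intro g hg
    change b g⁻¹ = 0
    have h1 := hb g⁻¹ g
    rw [inv_mul_cancel, coc_one π hb, show b g = 0 from hg, map_zero, add_zero] at h1
    exact h1.symm

theorem mem_zer {b : G → H} (hb : IsCoc π b) (g : G) : g ∈ zer π hb ↔ b g = 0 := Iff.rfl

/-- a cocycle which is bounded on a subgroup is a coboundary there -/
theorem cob [CompleteSpace H] {b : G → H} (hb : IsCoc π b) (N : Subgroup G)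
    (h : ∃ C : ℝ, ∀ g ∈ N, ‖b g‖ ≤ C) : ∃ w, ∀ g ∈ N, b g = π.hom g w - w := by
  obtain ⟨C, hC⟩ := h
  let πN : Rep N H := ⟨π.hom.comp N.subtype, fun g v => π.norm g v⟩
  obtain ⟨w, hw⟩ := Pool.Agent.Q38.PT.Ce.center N H πN (fun g => b g) (fun g h => hb g h)
    ⟨C, fun g => hC g g.2⟩
  exact ⟨w, fun g hg => hw ⟨g, hg⟩⟩

theorem cob_bd {b : G → H} (w : H) (A : Set G) (h : ∀ g ∈ A, b g = π.hom g w - w) :
    ∃ C : ℝ, ∀ g ∈ A, ‖b g‖ ≤ C := by
  refine ⟨‖w‖ + ‖w‖, fun g hg => ?_⟩
  rw [h g hg]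
  exact (norm_sub_le _ _).trans (by rw [π.norm])

/-- a cocycle of a tempered representation which is bounded on a set is bounded on the sets which are
controlled by it -/
theorem ctrl_bd [CompleteSpace H] (hπ : Tempered π) {b : G → H} (hb : IsCoc π b) (A₀ : Set G)
    (h0 : ∃ C : ℝ, ∀ g ∈ A₀, ‖b g‖ ≤ C) (A : Set G) (hA : Ctrl G A₀ A) :
    ∃ C : ℝ, ∀ g ∈ A, ‖b g‖ ≤ C := by
  have am : ∀ N : Subgroup G, ¬ Amenable N → ¬ Amen N := fun N h h' =>
    h (Pool.Agent.Q169.PT.Br.folner h')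
  induction hA with
  | base => exact h0
  | finite A h =>
    obtain ⟨C, hC⟩ := (h.image fun g => ‖b g‖).bddAbove
    exact ⟨C, fun g hg => hC ⟨g, hg, rfl⟩⟩
  | subset A B h _ ih =>
    obtain ⟨C, hC⟩ := ih
    exact ⟨C, fun g hg => hC g (h hg)⟩
  | union A B _ _ ih1 ih2 =>
    obtain ⟨C, hC⟩ := ih1
    obtain ⟨D, hD⟩ := ih2
    refine ⟨max C D, fun g hg => ?_⟩
    rcases hg with hg | hg
    · exact (hC g hg).trans (le_max_left _ _)
    · exact (hD g hg).trans (le_max_right _ _)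
  | mul A B _ _ ih1 ih2 =>
    obtain ⟨C, hC⟩ := ih1
    obtain ⟨D, hD⟩ := ih2
    refine ⟨C + D, ?_⟩
    rintro _ ⟨x, hx, y, hy, rfl⟩
    rw [hb x y]
    refine (norm_add_le _ _).trans ?_
    rw [π.norm]
    exact add_le_add (hC x hx) (hD y hy)
  | inv A _ ih =>
    obtain ⟨C, hC⟩ := ih
    refine ⟨C, fun g hg => ?_⟩
    have h1 := hC g⁻¹ hg
    rw [coc_inv π hb, norm_neg, π.norm] at h1
    exact h1
  | relT K N hn h =>
    let πK : Rep K H := ⟨π.hom.comp K.subtype, fun g v => π.norm g v⟩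
    obtain ⟨C, hC⟩ := Pool.Agent.Q169.PT.Re.bdd K N (Pool.Agent.Q169.PT.Br.rel N h) H πK
      (fun g => b g) (fun g h => hb g h)
    refine ⟨C, ?_⟩
    rintro _ ⟨y, hy, rfl⟩
    exact hC y hy
  | conj A L hL _ ih =>
    obtain ⟨S, ε, hε, hS⟩ := gapv π hπ L (am L hL)
    choose! D hD using ih
    refine ⟨(∑ s ∈ S, (D (s : G) + ‖b s‖)) / ε, fun a ha => ?_⟩
    rw [le_div_iff₀ hε, mul_comm]
    refine (hS (b a)).trans (Finset.sum_le_sum fun s _ => ?_)
    have h1 : (s : G) * a = a * (a⁻¹ * s * a) := by group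
    have h2 : b s + π.hom s (b a) = b a + π.hom a (b (a⁻¹ * s * a)) := by
      rw [← hb, ← hb, ← h1]
    have h3 : π.hom s (b a) - b a = π.hom a (b (a⁻¹ * s * a)) - b s := by
      rw [sub_eq_sub_iff_add_eq_add, add_comm, h2, add_comm]
    rw [h3]
    refine (norm_sub_le _ _).trans ?_
    rw [π.norm]
    exact add_le_add (hD s s.2 _ ⟨a, ha, rfl⟩) le_rfl
  | spread L hL _ ih =>
    obtain ⟨w, hw⟩ := cob π hb L ih
    refine cob_bd π w _ fun g hg => ?_
    have hb' := coc_sub π hb w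
    have h0 : ∀ h ∈ L, h ∈ zer π hb' := fun h hh => by
      rw [mem_zer, hw h hh, sub_self]
    have h1 : Subgroup.closure
        {g : G | ¬ Amenable (L ⊓ L.map (MulAut.conj g).toMonoidHom : Subgroup G)} ≤ zer π hb' := by
      rw [Subgroup.closure_le]
      intro g hg
      rw [SetLike.mem_coe, mem_zer]
      refine Pool.Agent.Q169.PT.Re.no_inv π hπ _ (am _ hg) _ fun h hh => ?_
      obtain ⟨hh1, k, hk, hh2⟩ := Subgroup.mem_inf.1 hh
      have hh3 : h = g * k * g⁻¹ := hh2.symm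
      have h4 : h * g = g * k := by rw [hh3]; group
      have h5 := hb' h g
      have hk0 : (fun g => b g - (π.hom g w - w)) k = 0 := h0 k hk
      have hh0 : (fun g => b g - (π.hom g w - w)) h = 0 := h0 h hh1
      rw [h4, hb' g k, hk0, hh0, map_zero, add_zero, zero_add] at h5
      exact h5.symm
    exact sub_eq_zero.1 ((mem_zer π hb' g).1 (h1 hg))
  | join ι K i₀ _ h ih =>
    obtain ⟨w, hw⟩ := cob π hb (K i₀) (ih i₀)
    have hb' := coc_sub π hb w
    refine cob_bd π w _ fun g hg => ?_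
    have h1 : (⨆ i, K i : Subgroup G) ≤ zer π hb' := by
      refine iSup_le fun i g hg => ?_
      obtain ⟨u, hu⟩ := cob π hb (K i) (ih i)
      have h2 : u = w := by
        rw [← sub_eq_zero]
        refine Pool.Agent.Q169.PT.Re.no_inv π hπ _ (am _ (h i)) _ fun g hg => ?_
        obtain ⟨hg1, hg2⟩ := Subgroup.mem_inf.1 hg
        have h3 := hw g hg1
        rw [hu g hg2] at h3
        rw [map_sub, sub_eq_sub_iff_add_eq_add]
        rw [sub_eq_sub_iff_add_eq_add] at h3
        rw [h3, add_comm]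
      rw [mem_zer, hu g hg, h2, sub_self]
    exact sub_eq_zero.1 ((mem_zer π hb' g).1 (h1 hg))

end

end

end Pool.Agent.U89.PD
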